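import Pool.Agent.Helper77.OC.St

set_option autoImplicit false

namespace Pool.Agent.Helper36.OC.EXT

open Pool.Agent.Helper35.PM Pool.Agent.Helper77.HY Pool.Agent.Helper77.OC

theorem main (hLc : StLc) (hCnt : StCnt) : StExt := by
  classical
  intro V _ _ G p L U W c hUW hp hL hc hdf
  let lc : V → Finset ℕ := fun r => (L r).filter fun γ => ∃ u ∈ U, G.Adj r u ∧ c u = γ
  have hlc : ∀ r, (lc r).card = lost G U L c r := by
    intro r
    unfold lost
    rw [← Set.ncard_coe_finset]
    congr 1
    ext γ
    simp [lc]
  have hsub : ∀ r, lc r ⊆ L r := fun r => Finset.filter_subset _ _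
  obtain ⟨c1, h1, h2⟩ := hLc V G (W \ U) p (lost G U L c)
    (by
      intro u hu v hv huv
      rw [Finset.mem_sdiff] at hu hv
      exact hp u hu.1 hu.2 v hv.1 hv.2 huv)
    (by
      intro T hT
      have hdisj : Disjoint U T := by
        rw [Finset.disjoint_left]
        intro a ha haT
        exact (Finset.mem_sdiff.1 (hT haT)).2 ha
      have hTW : T ⊆ W := fun a ha => (Finset.mem_sdiff.1 (hT ha)).1
      have h3 := hdf (U ∪ T) Finset.subset_union_left (Finset.union_subset hUW hTW)
      have h4 : (U ∪ T) \ U = T := by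
        ext a
        simp only [Finset.mem_sdiff, Finset.mem_union]
        constructor
        · rintro ⟨h | h, h'⟩
          · exact absurd h h'
          · exact h
        · intro h
          exact ⟨Or.inr h, fun h' => (Finset.disjoint_left.1 hdisj) h' h⟩
      rw [h4] at h3
      have h5 := hCnt.2.1 V G U T hdisj
      have h6 : (U ∪ T).card = U.card + T.card := Finset.card_union_of_disjoint hdisj
      unfold df at h3
      rw [h5, h6] at h3
      push_cast at h3
      have h7 : ((eN G T + ∑ v ∈ T, lost G U L c v : ℕ) : ℤ) ≤ ((2 * T.card : ℕ) : ℤ) := by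
        push_cast
        linarith
      exact_mod_cast h7)
    (fun r => L r \ lc r)
    (by
      intro r _
      show 3 ≤ (L r \ lc r).card + lost G U L c r
      rw [← hlc r, Finset.card_sdiff_of_subset (hsub r), hL r]
      have := Finset.card_le_card (hsub r)
      rw [hL r] at this
      omega)
  refine ⟨fun v => if v ∈ U then c v else c1 v, ?_, ?_, ?_⟩
  · intro u hu
    simp [hu]
  · intro v hv
    by_cases hvU : v ∈ U
    · simp only [hvU, if_true]
      exact hc.1 v hvU
    · simp only [hvU, if_false]
      exact (Finset.mem_sdiff.1 (h1 v (Finset.mem_sdiff.2 ⟨hv, hvU⟩))).1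
  · have key : ∀ u ∈ U, ∀ v ∈ W, v ∉ U → G.Adj v u → c u ≠ c1 v := by
      intro u hu v hv hvU hvu heq
      have h3 := Finset.mem_sdiff.1 (h1 v (Finset.mem_sdiff.2 ⟨hv, hvU⟩))
      exact h3.2 (Finset.mem_filter.2 ⟨h3.1, u, hu, hvu, heq⟩)
    intro u hu v hv huv
    by_cases huU : u ∈ U
    · by_cases hvU : v ∈ U
      · simp only [huU, hvU, if_true]
        exact hc.2 u huU v hvU huv
      · simp only [huU, hvU, if_true, if_false]
        exact key u huU v hv hvU huv.symm
    · by_cases hvU : v ∈ U
      · simp only [huU, hvU, if_true, if_false]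
        exact fun h => key v hvU u hu huU huv h.symm
      · simp only [huU, hvU, if_false]
        exact h2 u (Finset.mem_sdiff.2 ⟨hu, huU⟩) v (Finset.mem_sdiff.2 ⟨hv, hvU⟩) huv

end Pool.Agent.Helper36.OC.EXT
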