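import Pool.Agent.Helper89.OC.St1

/-!
# Project OC (MP_2b6189_al), module GLA: characters of the fusion ring
-/

set_option autoImplicit false

namespace Pool.Agent.Helper36.OC

open Matrix ComplexConjugate Pool.Agent.Helper94.YF Pool.Agent.Helper94.YG
open Pool.Agent.Helper89.OS Pool.Agent.Helper89.OC Pool.Agent.Helper13.OS

section

variable {I : Type} [Fintype I] [DecidableEq I]

theorem chi_o (Z : CentreData I) (i : I) : Cchi Z i Z.o = 1 :=
  div_self (xe_so_ne Z.toCentreRep i)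

theorem n_ne (Z : CentreData I) : (Z.n : ℂ) ≠ 0 := Nat.cast_ne_zero.2 Z.n_pos.ne'

theorem d_ne (Z : CentreData I) (i : I) : (Z.d i : ℂ) ≠ 0 := Nat.cast_ne_zero.2 (Z.d_pos i).ne'

theorem o_chi (Z : CentreData I) (k : I) : Cchi Z Z.o k = Z.d k := by
  have h1 := n_ne Z
  unfold Cchi
  rw [Z.s_symm k Z.o, Z.s_o, Z.s_o, Z.d_o]
  field_simp
  simp

theorem chi_mul (Z : CentreData I) (i k l : I) :
    Cchi Z i k * Cchi Z i l = ∑ v, (Z.N k l v : ℂ) * Cchi Z i v := by
  have h0 := xe_so_ne Z.toCentreRep i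
  have h1 := Z.verlinde k l i
  have h2 : ∑ v, (Z.N k l v : ℂ) * Cchi Z i v
      = (∑ v, (Z.N k l v : ℂ) * Z.rho Sm v i) / Z.rho Sm Z.o i := by
    rw [Finset.sum_div]
    exact Finset.sum_congr rfl fun v _ => by
      unfold Cchi
      rw [mul_div_assoc]
  rw [h2]
  unfold Cchi
  rw [div_mul_div_comm, h1, mul_div_mul_left _ _ h0]

theorem dimR (Z : CentreData I) (k l : I) :
    (Z.d k : ℝ) * Z.d l = ∑ v, (Z.N k l v : ℝ) * Z.d v := by
  have h := chi_mul Z Z.o k l
  simp only [o_chi] at h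
  exact_mod_cast h

theorem bound (Z : CentreData I) (σ : ℂ ≃+* ℂ) (i k : I) : ‖σ (Cchi Z i k)‖ ≤ Z.d k := by
  let f : I → ℂ := fun k => σ (Cchi Z i k)
  have hf : ∀ k, σ (Cchi Z i k) = f k := fun _ => rfl
  have hfo : f Z.o = 1 := by
    rw [← hf, chi_o, map_one]
  have hmul : ∀ k l, f k * f l = ∑ v, (Z.N k l v : ℂ) * f v := by
    intro k l
    rw [← hf, ← hf, ← map_mul, chi_mul, map_sum]
    exact Finset.sum_congr rfl fun v _ => by rw [map_mul, map_natCast, hf]
  have hdp : ∀ v, (0 : ℝ) < Z.d v := fun v => by exact_mod_cast Z.d_pos v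
  have : Nonempty I := ⟨Z.o⟩
  obtain ⟨l, hl⟩ := Finite.exists_max (fun l => ‖f l‖ / (Z.d l : ℝ))
  set M : ℝ := ‖f l‖ / (Z.d l : ℝ) with hM
  have hM1 : 1 ≤ M := by
    have h := hl Z.o
    rw [hfo, Z.d_o] at h
    simpa using h
  have hbd : ∀ v, ‖f v‖ ≤ M * Z.d v := by
    intro v
    have h := hl v
    rwa [div_le_iff₀ (hdp v)] at h
  have hfl : ‖f l‖ = M * Z.d l := by
    rw [hM, div_mul_cancel₀ _ (hdp l).ne']
  have h1 : ‖f k‖ * ‖f l‖ ≤ M * (Z.d k * Z.d l) := by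
    rw [← norm_mul, hmul, dimR, Finset.mul_sum]
    refine (norm_sum_le _ _).trans (Finset.sum_le_sum fun v _ => ?_)
    rw [norm_mul, Complex.norm_natCast]
    have h2 := mul_le_mul_of_nonneg_left (hbd v) (Nat.cast_nonneg (α := ℝ) (Z.N k l v))
    linarith
  rw [hfl] at h1
  have hpos : 0 < M * Z.d l := mul_pos (by linarith) (hdp l)
  have h3 : ‖f k‖ * (M * Z.d l) ≤ Z.d k * (M * Z.d l) := by linarith
  exact le_of_mul_le_mul_right h3 hpos

theorem hGLA : StGLA := by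
  intro I _ _ Z
  refine ⟨chi_o Z, o_chi Z, chi_mul Z, fun i k => xe_nu_int Z.toCentreRep i k, ?_, ?_, ?_,
    bound Z, ?_, ?_⟩
  · intro i k
    have h1 := n_ne Z
    have h2 := d_ne Z i
    unfold Sf Cchi
    rw [Z.s_symm i k, Z.s_o i]
    field_simp
  · intro i k
    unfold Sf
    rw [Z.s_symm]
  · intro i
    have h1 := n_ne Z
    unfold Sf
    rw [Z.s_symm, Z.s_o]
    field_simp
  · intro i k
    unfold Cchi
    rw [Z.s_dual, map_div₀, xe_so_conj]
  · intro i k l v hk hl hN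
    have h1 := chi_mul Z i k l
    rw [hk, hl] at h1
    have h2 := congrArg Complex.re h1
    rw [Complex.re_sum] at h2
    have h3 : ((Z.d k : ℂ) * (Z.d l : ℂ)).re = (Z.d k : ℝ) * Z.d l := by
      rw [← Complex.natCast_re, ← Complex.natCast_re]
      simp
    rw [h3, dimR] at h2
    have hb : ∀ w, ‖Cchi Z i w‖ ≤ Z.d w := fun w => bound Z (RingEquiv.refl ℂ) i w
    have hre : ∀ w, (Cchi Z i w).re ≤ Z.d w := fun w =>
      (Complex.re_le_norm _).trans (hb w)
    have h4 : ∑ w, (Z.N k l w : ℝ) * ((Z.d w : ℝ) - (Cchi Z i w).re) = 0 := by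
      have h5 : ∀ w, (Z.N k l w : ℝ) * ((Z.d w : ℝ) - (Cchi Z i w).re)
          = (Z.N k l w : ℝ) * Z.d w - ((Z.N k l w : ℂ) * Cchi Z i w).re := by
        intro w
        simp
        ring
      simp only [h5, Finset.sum_sub_distrib]
      rw [h2, sub_self]
    have h6 := (Finset.sum_eq_zero_iff_of_nonneg (fun w _ =>
      mul_nonneg (Nat.cast_nonneg (α := ℝ) (Z.N k l w)) (sub_nonneg.mpr (hre w)))).mp h4 v
      (Finset.mem_univ v)
    have h7 : (Z.d v : ℝ) - (Cchi Z i v).re = 0 := by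
      rcases mul_eq_zero.mp h6 with h | h
      · exact absurd (by exact_mod_cast h) hN
      · exact h
    have h8 : (Cchi Z i v).re = Z.d v := by linarith
    have h9 : (Cchi Z i v).im = 0 := by
      have h10 := hb v
      have h11 : ‖Cchi Z i v‖ ^ 2 = (Cchi Z i v).re ^ 2 + (Cchi Z i v).im ^ 2 := by
        rw [Complex.sq_norm, Complex.normSq_apply]
        ring
      have h12 : ‖Cchi Z i v‖ ^ 2 ≤ (Z.d v : ℝ) ^ 2 :=
        pow_le_pow_left₀ (norm_nonneg _) h10 2
      rw [h11, h8] at h12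
      have h13 : (Cchi Z i v).im ^ 2 ≤ 0 := by linarith
      exact pow_eq_zero_iff (two_ne_zero) |>.1 (le_antisymm h13 (sq_nonneg _))
    apply Complex.ext
    · rw [h8]; simp
    · rw [h9]; simp

end

end Pool.Agent.Helper36.OC
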