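import Pool.Agent.Helper77.OC.St

set_option autoImplicit false

namespace Pool.Agent.Helper36.OC.SM

open Pool.Agent.Helper35.PM Pool.Agent.Helper77.HY Pool.Agent.Helper77.OC

theorem pick_ne (M : Finset ℕ) (h : M.card = 2) (x : ℕ) : ∃ y ∈ M, y ≠ x := by
  by_contra hcon
  push Not at hcon
  have h1 : M ⊆ {x} := fun y hy => Finset.mem_singleton.2 (hcon y hy)
  have h2 := Finset.card_le_card h1
  rw [Finset.card_singleton] at h2
  omega

theorem main (_hFr : StFr) : StSm := by
  classical
  intro V _ _ G S hTF hcard
  by_cases hF : Forest G (S : Set V)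
  · exact Or.inl hF
  right
  unfold Forest at hF
  push Not at hF
  obtain ⟨T, hTS, ⟨a, haT⟩, hT⟩ := hF
  obtain ⟨b, hbT, d, hdT, hab, had, hbd⟩ := hT a haT
  have hbd' : ¬ G.Adj b d := fun h => hTF a b d hab h had
  -- the neighbour of `b` different from `a`
  obtain ⟨c, hcT, hbc, hca⟩ : ∃ c ∈ T, G.Adj b c ∧ c ≠ a := by
    obtain ⟨x, hx, y, hy, h1, h2, h3⟩ := hT b hbT
    by_cases hxa : x = a
    · exact ⟨y, hy, h2, fun h => h3 (hxa.trans h.symm)⟩
    · exact ⟨x, hx, h1, hxa⟩
  have hcd : c ≠ d := fun h => hbd' (h ▸ hbc)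
  have hcb : c ≠ b := fun h => G.irrefl (h ▸ hbc)
  have hba : b ≠ a := fun h => G.irrefl (h ▸ hab)
  have hda : d ≠ a := fun h => G.irrefl (h ▸ had)
  have hsub : ({a, b, c, d} : Finset V) ⊆ S := by
    intro x hx
    simp only [Finset.mem_insert, Finset.mem_singleton] at hx
    rcases hx with rfl | rfl | rfl | rfl
    · exact_mod_cast hTS haT
    · exact_mod_cast hTS hbT
    · exact_mod_cast hTS hcT
    · exact_mod_cast hTS hdT
  have hc4 : ({a, b, c, d} : Finset V).card = 4 := by
    rw [Finset.card_insert_of_notMem, Finset.card_insert_of_notMem, Finset.card_insert_of_notMem,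
      Finset.card_singleton]
    · simpa using hcd
    · simp only [Finset.mem_insert, Finset.mem_singleton, not_or]
      exact ⟨hcb.symm, hbd⟩
    · simp only [Finset.mem_insert, Finset.mem_singleton, not_or]
      exact ⟨hba.symm, hca.symm, hda.symm⟩
  have hS : ({a, b, c, d} : Finset V) = S := Finset.eq_of_subset_of_card_le hsub (by omega)
  have hdc : G.Adj d c := by
    obtain ⟨e, heT, hde, hea⟩ : ∃ e ∈ T, G.Adj d e ∧ e ≠ a := by
      obtain ⟨x, hx, y, hy, h1, h2, h3⟩ := hT d hdT
      by_cases hxa : x = a
      · exact ⟨y, hy, h2, fun h => h3 (hxa.trans h.symm)⟩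
      · exact ⟨x, hx, h1, hxa⟩
    have heS : e ∈ ({a, b, c, d} : Finset V) := by
      rw [hS]; exact_mod_cast hTS heT
    simp only [Finset.mem_insert, Finset.mem_singleton] at heS
    rcases heS with rfl | rfl | rfl | rfl
    · exact absurd rfl hea
    · exact absurd hde.symm hbd'
    · exact hde
    · exact absurd hde G.irrefl
  refine ⟨?_, ?_⟩
  · unfold eN
    have hfin : {e : Sym2 V | e ∈ G.edgeSet ∧ ∀ v ∈ e, v ∈ S}.Finite := Set.toFinite _
    have hE : (({s(a, b), s(b, c), s(c, d), s(d, a)} : Finset (Sym2 V)) : Set (Sym2 V)) ⊆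
        {e : Sym2 V | e ∈ G.edgeSet ∧ ∀ v ∈ e, v ∈ S} := by
      intro e he
      simp only [Finset.coe_insert, Finset.coe_singleton, Set.mem_insert_iff, Set.mem_singleton_iff] at he
      have ha' : a ∈ S := by rw [← hS]; simp
      have hb' : b ∈ S := by rw [← hS]; simp
      have hc' : c ∈ S := by rw [← hS]; simp
      have hd' : d ∈ S := by rw [← hS]; simp
      rcases he with rfl | rfl | rfl | rfl
      · refine ⟨hab, fun v hv => ?_⟩
        rcases Sym2.mem_iff.1 hv with rfl | rfl
        · exact ha'
        · exact hb'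
      · refine ⟨hbc, fun v hv => ?_⟩
        rcases Sym2.mem_iff.1 hv with rfl | rfl
        · exact hb'
        · exact hc'
      · refine ⟨hdc.symm, fun v hv => ?_⟩
        rcases Sym2.mem_iff.1 hv with rfl | rfl
        · exact hc'
        · exact hd'
      · refine ⟨had.symm, fun v hv => ?_⟩
        rcases Sym2.mem_iff.1 hv with rfl | rfl
        · exact hd'
        · exact ha'
    have h4 : ({s(a, b), s(b, c), s(c, d), s(d, a)} : Finset (Sym2 V)).card = 4 := by
      rw [Finset.card_insert_of_notMem, Finset.card_insert_of_notMem, Finset.card_insert_of_notMem,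
        Finset.card_singleton]
      · simp only [Finset.mem_singleton, Sym2.eq_iff, not_or, not_and]
        exact ⟨fun h => absurd h hcd, fun h => absurd h hca⟩
      · simp only [Finset.mem_insert, Finset.mem_singleton, Sym2.eq_iff, not_or, not_and]
        exact ⟨⟨fun h => absurd h hcb.symm, fun h => absurd h hbd⟩,
          ⟨fun h => absurd h hbd, fun h => absurd h hba⟩⟩
      · simp only [Finset.mem_insert, Finset.mem_singleton, Sym2.eq_iff, not_or, not_and]
        exact ⟨⟨fun h => absurd h hba.symm, fun h => absurd h hca.symm⟩,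
          ⟨fun h => absurd h hca.symm, fun h => absurd h hda.symm⟩,
          ⟨fun h => absurd h hda.symm, fun _ => hbd⟩⟩
    calc 4 = ({s(a, b), s(b, c), s(c, d), s(d, a)} : Finset (Sym2 V)).card := h4.symm
      _ = (({s(a, b), s(b, c), s(c, d), s(d, a)} : Finset (Sym2 V)) : Set (Sym2 V)).ncard :=
          (Set.ncard_coe_finset _).symm
      _ ≤ _ := Set.ncard_le_ncard hE hfin
  · intro L A hLA
    obtain ⟨ga, hga⟩ : (L a ∩ A).Nonempty := by
      rw [← Finset.card_pos, (hLA a).1]; norm_num
    obtain ⟨gc, hgc, -⟩ := pick_ne (L c \ A) (hLA c).2 0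
    obtain ⟨gb, hgb, hgbc⟩ := pick_ne (L b \ A) (hLA b).2 gc
    obtain ⟨gd, hgd, hgdc⟩ := pick_ne (L d \ A) (hLA d).2 gc
    rw [Finset.mem_inter] at hga
    rw [Finset.mem_sdiff] at hgc hgb hgd
    have hAb : ga ≠ gb := fun h => hgb.2 (h ▸ hga.2)
    have hAc : ga ≠ gc := fun h => hgc.2 (h ▸ hga.2)
    have hAd : ga ≠ gd := fun h => hgd.2 (h ▸ hga.2)
    let f : V → ℕ := fun v => if v = a then ga else if v = b then gb else if v = c then gc else gd
    have fa : f a = ga := by simp [f]
    have fb : f b = gb := by simp [f, hba]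
    have fc : f c = gc := by simp [f, hca, hcb]
    have fd : f d = gd := by simp [f, hda, hbd.symm, hcd.symm]
    refine ⟨f, ?_, ?_⟩
    · intro v hv
      rw [← hS] at hv
      simp only [Finset.mem_insert, Finset.mem_singleton] at hv
      rcases hv with rfl | rfl | rfl | rfl
      · rw [fa]; exact hga.1
      · rw [fb]; exact hgb.1
      · rw [fc]; exact hgc.1
      · rw [fd]; exact hgd.1
    · intro u hu v hv huv
      rw [← hS] at hu hv
      simp only [Finset.mem_insert, Finset.mem_singleton] at hu hv
      rcases hu with rfl | rfl | rfl | rfl <;> rcases hv with rfl | rfl | rfl | rfl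
      all_goals first
        | exact absurd huv G.irrefl
        | exact absurd huv hbd'
        | exact absurd huv.symm hbd'
        | (simp only [fa, fb, fc, fd]
           first
            | exact hAb
            | exact hAc
            | exact hAd
            | exact hAb.symm
            | exact hAc.symm
            | exact hAd.symm
            | exact hgbc
            | exact hgbc.symm
            | exact hgdc
            | exact hgdc.symm)

end Pool.Agent.Helper36.OC.SM
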